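import Pool.Agent.H12.Zono6

set_option autoImplicit false

namespace Pool.Agent.Results.MP_da739a_co.Sparse

open Pool.Agent.H12.Zono

theorem result :
    ∀ (k : ℕ), 1 ≤ k → ∀ (V : Type) [Fintype V] (G : SimpleGraph V),
      (∀ S : Set V, S.Nonempty →
        2 * k * (G.induce S).edgeSet.ncard ≤ (2 * k + 1) * (S.ncard - 1)) →
      Nonempty (G →g SimpleGraph.cycleGraph (2 * k + 1)) := by
  intro k hk V _ G h
  classical
  obtain ⟨j, rfl⟩ : ∃ j, k = j + 1 := ⟨k - 1, by omega⟩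
  have hs : Sparse (e1 G) (e2 G) (2 * ((j + 1 : ℕ) : ℝ) + 1) := by
    intro S hS
    have h1 := h S (by simpa using hS)
    have h2 : (Finset.univ.filter (fun e => e1 G e ∈ S ∧ e2 G e ∈ S)).card
        ≤ (G.induce (S : Set V)).edgeSet.ncard := by
      rw [← Set.ncard_coe_finset,
        ← Set.ncard_image_of_injective _ (Subtype.val_injective (p := fun e => e ∈ G.edgeSet))]
      refine (Set.ncard_le_ncard ?_ (Set.toFinite _)).trans
        (Set.ncard_image_le (f := Sym2.map Subtype.val) (Set.toFinite _))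
      rintro _ ⟨e, he, rfl⟩
      simp only [Finset.coe_filter, Finset.mem_univ, true_and, Set.mem_ofPred_eq] at he
      exact ⟨s(⟨e1 G e, he.1⟩, ⟨e2 G e, he.2⟩), e_adj G e, e12 G e⟩
    rw [Set.ncard_coe_finset] at h1
    have h3 : 1 ≤ S.card := hS.card_pos
    have h4 : 2 * (j + 1) * (Finset.univ.filter (fun e => e1 G e ∈ S ∧ e2 G e ∈ S)).card
        ≤ (2 * (j + 1) + 1) * (S.card - 1) := (Nat.mul_le_mul_left _ h2).trans h1
    have h5 : ((2 * (j + 1) * (Finset.univ.filter (fun e => e1 G e ∈ S ∧ e2 G e ∈ S)).card : ℕ) : ℝ)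
        ≤ ((2 * (j + 1) + 1) * (S.card - 1) : ℕ) := by exact_mod_cast h4
    rw [Nat.cast_mul (2 * (j + 1) + 1), Nat.cast_sub h3] at h5
    push_cast at h5 ⊢
    linarith
  have hj : (0 : ℝ) ≤ ((j + 1 : ℕ) : ℝ) := by positivity
  obtain ⟨C, hC⟩ := int_tension (e1 G) (e2 G) (j + 1) (cyc_rank _ _ _ (by linarith) hs)
  exact hom_of_int G j C hC

end Pool.Agent.Results.MP_da739a_co.Sparse
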